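import Pool.Agent.N699.ST.Tra

set_option autoImplicit false

/-! Primes `q` for which all `d i * q + a i` are primes: all slopes and all vectors of constants near a random one. -/

namespace Pool.Agent.Run7.h927.ST
open Finset
open Pool.Agent.N469.PT (OneLaw)
open Pool.Agent.N699.ST

/-- a larger exponent gives a stronger formula -/
lemma Fo_mono {s : ℕ} {ε : ℝ} {U U' N x : ℕ} {d a : Fin s → ℕ} (hU : U ≤ U') (hN : 3 ≤ N) (h : Fo ε U' N x d a) :
    Fo ε U N x d a := by
  obtain ⟨S, hS0, hS, h1, h2⟩ := h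
  refine ⟨S, hS0, hS, h1.trans ?_, h2⟩
  have hL : 1 ≤ Real.log N := by
    rw [Real.le_log_iff_exp_le (by exact_mod_cast (by omega : 0 < N))]
    have : (3 : ℝ) ≤ N := by exact_mod_cast hN
    linarith [Real.exp_one_lt_d9]
  exact div_le_div_of_nonneg_left (Nat.cast_nonneg _) (by positivity) (pow_le_pow_right₀ hL hU)

lemma AllS_mono {s : ℕ} {ε : ℝ} {A U U' N : ℕ} {a : Fin s → ℕ} (hU : U ≤ U') (hN : 3 ≤ N) (h : AllS ε A U' N a) :
    AllS ε A U N a := fun j d hj hd had => Fo_mono hU hN (h j d hj hd had)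

/-- the formula for all the slopes and all the vectors of constants in a box of side `log ^ W N` -/
def NearS {s : ℕ} (ε : ℝ) (A U W N : ℕ) (a : Fin s → ℕ) : Prop :=
  ∀ a' : Fin s → ℕ, (∀ i, a i ≤ a' i ∧ (a' i : ℝ) ≤ a i + Real.log N ^ W) → AllS ε A U N a'

lemma pow_log_le (W : ℕ) : ∃ N₀ : ℕ, ∀ N : ℕ, N₀ ≤ N → Real.log N ^ W ≤ N := by
  have h := (Real.isLittleO_pow_log_id_atTop (n := W)).bound (show (0 : ℝ) < 1 by norm_num)
  obtain ⟨X, hX⟩ := Filter.eventually_atTop.1 h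
  refine ⟨⌈X⌉₊ + 1, fun N hN => ?_⟩
  have h1 : X ≤ (N : ℝ) := (Nat.le_ceil X).trans (by exact_mod_cast (by omega : ⌈X⌉₊ ≤ N))
  have h2 := hX _ h1
  have h3 : (1 : ℝ) ≤ N := by exact_mod_cast (by omega : 1 ≤ N)
  have h4 : 0 ≤ Real.log N := Real.log_nonneg h3
  rw [Real.norm_of_nonneg (by positivity), id, Real.norm_of_nonneg (by linarith), one_mul] at h2
  exact h2

open Classical in
/-- the general theorem for all the vectors near a random one -/
theorem ws_near (s : ℕ) (hs : 1 ≤ s) (L : Fin s → ℕ → Finset ℕ → (ℕ → ℝ) → Prop) (κκ : Fin s → ℕ) (hκ : ∀ i, 1 ≤ κκ i)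
    (Bc U A W : ℕ) (ε : ℝ) (hε : 0 < ε) (h : ∀ i, ∀ V : ℕ, OneLaw (L i) (κκ i) (Bc + 1) V) :
    ∃ N₀ : ℕ, ∀ N, N₀ ≤ N → ∀ (Ω : Fin s → Finset ℕ) (p : Fin s → ℕ → ℝ), (∀ i, L i N (Ω i) (p i)) →
    (∀ i, ∀ v ∈ Ω i, 0 ≤ p i v) → ∀ c : Fin s → ℕ, (∀ i, c i ≤ Bc * N) →
    ∑ m ∈ Fintype.piFinset Ω, (if ¬ NearS ε A U W N (fun i => c i + κκ i * m i) then ∏ i, p i (m i) else 0) ≤
      1 / Real.log N ^ U := by
  obtain ⟨U', hU'⟩ : ∃ U', U' = U + (W + 1) * s := ⟨_, rfl⟩
  obtain ⟨N1, h1⟩ := ws_all s hs L κκ hκ (Bc + 1) U' A _ rfl ε hε (fun i => h i _)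
  obtain ⟨N2, h2⟩ := pow_log_le W
  refine ⟨N1 + N2 + 8, fun N hN Ω p hL hp c hc => ?_⟩
  have hlog2 : 2 ≤ Real.log N := by
    rw [Real.le_log_iff_exp_le (by exact_mod_cast (by omega : 0 < N))]
    have e1 : (8 : ℝ) ≤ N := by exact_mod_cast (by omega : 8 ≤ N)
    have e2 : Real.exp 2 = Real.exp 1 * Real.exp 1 := by rw [← Real.exp_add]; norm_num
    have e3 := Real.exp_one_lt_d9
    have e4 := Real.exp_pos 1
    nlinarith
  have hlog0 : 0 < Real.log N := by linarith
  obtain ⟨R, hR⟩ : ∃ R, R = ⌊Real.log N ^ W⌋₊ := ⟨_, rfl⟩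
  have hR1 : (R : ℝ) ≤ Real.log N ^ W := by rw [hR]; exact Nat.floor_le (by positivity)
  have hRN : R ≤ N := by
    have := h2 N (by omega)
    exact_mod_cast hR1.trans this
  have hR2 : (R : ℝ) + 1 ≤ Real.log N ^ (W + 1) := by
    have e1 : (1 : ℝ) ≤ Real.log N ^ W := one_le_pow₀ (by linarith)
    rw [pow_succ]
    nlinarith
  have key : ∀ hh ∈ Fintype.piFinset (fun _ : Fin s => range (R + 1)),
      ∑ m ∈ Fintype.piFinset Ω, (if ¬ AllS ε A U' N (fun i => (c i + hh i) + κκ i * m i) then ∏ i, p i (m i) else 0) ≤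
        1 / Real.log N ^ U' := by
    intro hh hhh
    refine h1 N (by omega) Ω p hL hp (fun i => c i + hh i) (fun i => ?_)
    have e1 := mem_range.1 (Fintype.mem_piFinset.1 hhh i)
    have e2 := hc i
    calc c i + hh i ≤ Bc * N + N := by omega
      _ = _ := by ring
  have step : ∀ m ∈ Fintype.piFinset Ω, (if ¬ NearS ε A U W N (fun i => c i + κκ i * m i) then ∏ i, p i (m i) else 0) ≤
      ∑ hh ∈ Fintype.piFinset (fun _ : Fin s => range (R + 1)),
        (if ¬ AllS ε A U' N (fun i => (c i + hh i) + κκ i * m i) then ∏ i, p i (m i) else 0) := by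
    intro m hm
    have hP0 : 0 ≤ ∏ i, p i (m i) := prod_nonneg fun j _ => hp j _ (Fintype.mem_piFinset.1 hm j)
    have hnn : ∀ hh ∈ Fintype.piFinset (fun _ : Fin s => range (R + 1)),
        0 ≤ (if ¬ AllS ε A U' N (fun i => (c i + hh i) + κκ i * m i) then ∏ i, p i (m i) else 0) := by
      intro hh _
      split_ifs
      · exact le_rfl
      · exact hP0
    by_cases h3 : NearS ε A U W N (fun i => c i + κκ i * m i)
    · rw [if_neg (not_not.2 h3)]
      exact sum_nonneg hnn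
    · rw [if_pos h3]
      unfold NearS at h3
      push Not at h3
      obtain ⟨a', ha', hbad⟩ := h3
      obtain ⟨hh, hhd⟩ : ∃ hh : Fin s → ℕ, ∀ i, a' i = (c i + hh i) + κκ i * m i := by
        refine ⟨fun i => a' i - (c i + κκ i * m i), fun i => ?_⟩
        have h5 : c i + κκ i * m i ≤ a' i := (ha' i).1
        show a' i = c i + (a' i - (c i + κκ i * m i)) + κκ i * m i
        omega
      have hmem : hh ∈ Fintype.piFinset (fun _ : Fin s => range (R + 1)) := by
        rw [Fintype.mem_piFinset]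
        intro i
        rw [mem_range, Nat.lt_succ_iff, hR]
        apply Nat.le_floor
        have e1 := (ha' i).2
        rw [hhd i] at e1
        push_cast at e1
        linarith
      have hbad' : ¬ AllS ε A U' N (fun i => (c i + hh i) + κκ i * m i) := by
        intro h4
        apply hbad
        have e1 : a' = fun i => (c i + hh i) + κκ i * m i := funext hhd
        rw [e1]
        exact AllS_mono (by omega) (by omega) h4
      refine le_trans (le_of_eq ?_) (single_le_sum hnn hmem)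
      rw [if_pos hbad']
  calc _ ≤ ∑ m ∈ Fintype.piFinset Ω, ∑ hh ∈ Fintype.piFinset (fun _ : Fin s => range (R + 1)),
        (if ¬ AllS ε A U' N (fun i => (c i + hh i) + κκ i * m i) then ∏ i, p i (m i) else 0) := sum_le_sum step
    _ = ∑ hh ∈ Fintype.piFinset (fun _ : Fin s => range (R + 1)), ∑ m ∈ Fintype.piFinset Ω,
        (if ¬ AllS ε A U' N (fun i => (c i + hh i) + κκ i * m i) then ∏ i, p i (m i) else 0) := sum_comm
    _ ≤ ∑ _hh ∈ Fintype.piFinset (fun _ : Fin s => range (R + 1)), 1 / Real.log N ^ U' := sum_le_sum key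
    _ = ((R : ℝ) + 1) ^ s * (1 / Real.log N ^ U') := by
        rw [sum_const, Fintype.card_piFinset, prod_const, card_univ, Fintype.card_fin, card_range, nsmul_eq_mul]
        push_cast
        ring
    _ ≤ (Real.log N ^ (W + 1)) ^ s * (1 / Real.log N ^ U') := by
        apply mul_le_mul_of_nonneg_right _ (by positivity)
        exact pow_le_pow_left₀ (by positivity) hR2 s
    _ = _ := by
        rw [← pow_mul, hU', pow_add]
        field_simp

end Pool.Agent.Run7.h927.ST
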