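import Pool.Agent.Run7.h927.ST.Near

set_option autoImplicit false

/-! From probabilities to numbers of exceptions, for uniform distributions. -/

namespace Pool.Agent.Run7.h927.ST
open Finset

/-- the number of the exceptions, for the uniform distributions on subsets of the `Ω i` -/
lemma unif_bad {s : ℕ} (Ω S : Fin s → Finset ℕ) (hS : ∀ i, S i ⊆ Ω i) (hne : ∀ i, 0 < (S i).card)
    (Q : (Fin s → ℕ) → Prop) [DecidablePred Q] (x : ℝ)
    (h : ∑ m ∈ Fintype.piFinset Ω, (if Q m then ∏ i, (if m i ∈ S i then 1 / ((S i).card : ℝ) else 0) else 0) ≤ x) :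
    (((Fintype.piFinset S).filter Q).card : ℝ) ≤ ((Fintype.piFinset S).card : ℝ) * x := by
  have hpos : 0 < ∏ i, ((S i).card : ℝ) := prod_pos fun i _ => by exact_mod_cast hne i
  have hcard : ((Fintype.piFinset S).card : ℝ) = ∏ i, ((S i).card : ℝ) := by
    rw [Fintype.card_piFinset]
    push_cast
    rfl
  have hsub : Fintype.piFinset S ⊆ Fintype.piFinset Ω := Fintype.piFinset_subset _ _ hS
  have e1 : (((Fintype.piFinset S).filter Q).card : ℝ) / ∏ i, ((S i).card : ℝ) ≤ x := by
    refine le_trans (le_of_eq ?_) h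
    rw [← sum_subset hsub (fun m _ hm => ?_)]
    · have e2 : ∀ m ∈ Fintype.piFinset S, (if Q m then ∏ i, (if m i ∈ S i then 1 / ((S i).card : ℝ) else 0) else 0) =
          if Q m then 1 / ∏ i, ((S i).card : ℝ) else 0 := by
        intro m hm
        have e3 : ∏ i, (if m i ∈ S i then 1 / ((S i).card : ℝ) else 0) = 1 / ∏ i, ((S i).card : ℝ) := by
          rw [one_div, ← prod_inv_distrib]
          apply prod_congr rfl
          intro i _
          rw [if_pos (Fintype.mem_piFinset.1 hm i), one_div]
        rw [e3]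
      rw [sum_congr rfl e2, ← sum_filter, sum_const, nsmul_eq_mul, mul_one_div]
    · rw [Fintype.mem_piFinset] at hm
      push Not at hm
      obtain ⟨i, hi⟩ := hm
      have : ∏ i, (if m i ∈ S i then 1 / ((S i).card : ℝ) else 0) = 0 :=
        prod_eq_zero (mem_univ i) (if_neg hi)
      rw [this, ite_self]
  rw [hcard]
  rw [div_le_iff₀ hpos] at e1
  linarith

end Pool.Agent.Run7.h927.ST
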